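import Pool.Agent.H74.OneP.UStmts

/-! Cycle sizes of permutations; modules D1, D2, D3, D5 of project ONEP. -/

namespace Pool.Agent.H80.OneP

open Equiv Equiv.Perm Pool.Agent.H74.OneP

variable {X : Type} [Finite X]

/-- size of a cycle -/
noncomputable def sz (p : Perm X) (q : Quotient (SameCycle.setoid p)) : ℕ :=
  Nat.card {y // (Quotient.mk (SameCycle.setoid p) y) = q}

theorem mk_eq_iff (p : Perm X) (x y : X) :
    (Quotient.mk (SameCycle.setoid p) x) = Quotient.mk (SameCycle.setoid p) y ↔ p.SameCycle x y :=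
  Quotient.eq (r := SameCycle.setoid p)

theorem pow_iff (p : Perm X) (x : X) (n : ℕ) :
    (p ^ n) x = x ↔ sz p (Quotient.mk (SameCycle.setoid p) x) ∣ n := by
  classical
  haveI := Fintype.ofFinite X
  set s : Finset X := Finset.univ.filter (fun y => p.SameCycle y x) with hs
  have hc : sz p (Quotient.mk (SameCycle.setoid p) x) = s.card := by
    unfold sz
    rw [Nat.card_eq_fintype_card, Fintype.card_subtype]
    congr 1
    ext y
    simp only [Finset.mem_filter, Finset.mem_univ, true_and, hs]
    exact mk_eq_iff p y x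
  have hcyc : p.IsCycleOn (s : Set X) := by
    refine ⟨?_, ?_⟩
    · refine ⟨?_, p.injective.injOn, ?_⟩
      · intro y hy
        simp only [hs, Finset.coe_filter, Finset.mem_univ, true_and, Set.mem_ofPred_eq] at hy ⊢
        exact (sameCycle_apply_left).2 hy
      · intro y hy
        simp only [hs, Finset.coe_filter, Finset.mem_univ, true_and, Set.mem_ofPred_eq] at hy
        refine ⟨p⁻¹ y, ?_, by simp⟩
        simp only [hs, Finset.coe_filter, Finset.mem_univ, true_and, Set.mem_ofPred_eq]
        exact (sameCycle_symm_apply_left).2 hy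
    · intro y hy z hz
      simp only [hs, Finset.coe_filter, Finset.mem_univ, true_and, Set.mem_ofPred_eq] at hy hz
      exact hy.trans hz.symm
  rw [hc]
  exact hcyc.pow_apply_eq (by simp [hs, SameCycle.refl])

theorem sz_pos (p : Perm X) (q : Quotient (SameCycle.setoid p)) : 0 < sz p q := by
  induction q using Quotient.inductionOn with
  | h x =>
    haveI : Nonempty {y // (Quotient.mk (SameCycle.setoid p) y) =
      Quotient.mk (SameCycle.setoid p) x} := ⟨⟨x, rfl⟩⟩
    exact Nat.card_pos

theorem card_fib {Y : Type*} [Finite Y] {Q : Type*} [Fintype Q] (f : Y → Q) :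
    Nat.card Y = ∑ q, Nat.card {y // f y = q} := by
  rw [← Nat.card_sigma]
  exact Nat.card_congr (Equiv.sigmaFiberEquiv f).symm

theorem card_sz (p : Perm X) [Fintype (Quotient (SameCycle.setoid p))] :
    Nat.card X = ∑ q, sz p q :=
  card_fib (Quotient.mk (SameCycle.setoid p))

theorem orb_mul {p : Perm X} {n : ℕ} (h : ∀ x, sz p (Quotient.mk _ x) = n) :
    n * orb p = Nat.card X := by
  haveI := Fintype.ofFinite (Quotient (SameCycle.setoid p))
  rw [card_sz p]
  have : ∀ q ∈ (Finset.univ : Finset (Quotient (SameCycle.setoid p))), sz p q = n := by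
    intro q _
    induction q using Quotient.inductionOn with
    | h x => exact h x
  rw [Finset.sum_congr rfl this]
  simp [orb, Nat.card_eq_fintype_card, mul_comm]

theorem orb_mul_le {p : Perm X} {n : ℕ} (h : ∀ x, n ≤ sz p (Quotient.mk _ x)) :
    n * orb p ≤ Nat.card X := by
  haveI := Fintype.ofFinite (Quotient (SameCycle.setoid p))
  rw [card_sz p]
  have : ∀ q ∈ (Finset.univ : Finset (Quotient (SameCycle.setoid p))), n ≤ sz p q := by
    intro q _
    induction q using Quotient.inductionOn with
    | h x => exact h x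
  have h2 := Finset.card_nsmul_le_sum _ _ _ this
  simpa [orb, Nat.card_eq_fintype_card, mul_comm] using h2

theorem sz_one {p : Perm X} {x : X} (h : p x ≠ x) : sz p (Quotient.mk _ x) ≠ 1 := by
  intro h1
  apply h
  have := (pow_iff p x 1).2 (by rw [h1])
  simpa using this

theorem sz_two_iff {p : Perm X} {x : X} (h : p x ≠ x) :
    sz p (Quotient.mk _ x) = 2 ↔ p (p x) = x := by
  constructor
  · intro h1
    have := (pow_iff p x 2).2 (by rw [h1])
    simpa [pow_succ] using this
  · intro h1
    have := (pow_iff p x 2).1 (by simpa [pow_succ] using h1)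
    have h3 := Nat.le_of_dvd (by norm_num) this
    have h4 := sz_one h
    have h5 := sz_pos p (Quotient.mk _ x)
    omega

theorem d1 : D1Stmt := by
  intro X _ ρ τ hK
  refine ⟨?_, ?_, ?_⟩
  · intro x hx
    have h : τ x = ρ x := by
      have := congrArg ρ hx; simpa using this
    refine hK.k1 x ?_
    rw [← h]
    exact (sameCycle_apply_right).2 (SameCycle.refl _ _)
  · apply orb_mul
    intro x
    have h4 : sz ρ (Quotient.mk (SameCycle.setoid ρ) x) ∣ 4 :=
      (pow_iff ρ x 4).1 (by simpa [pow_succ] using hK.four x)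
    have h2 : ¬ sz ρ (Quotient.mk (SameCycle.setoid ρ) x) ∣ 2 := by
      intro h
      have := (pow_iff ρ x 2).2 h
      have h' : ρ (ρ x) = x := by simpa [pow_succ] using this
      exact hK.k2 x (by rw [h'])
    have h5 := Nat.le_of_dvd (by norm_num) h4
    have h6 := sz_pos ρ (Quotient.mk (SameCycle.setoid ρ) x)
    generalize sz ρ (Quotient.mk (SameCycle.setoid ρ) x) = k at *
    interval_cases k <;> revert h4 h2 <;> decide
  · intro x h
    have key : ∀ y, τ.SameCycle x y → τ.SameCycle (ρ⁻¹ (τ y)) (ρ y) := by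
      intro y hy
      have h1 : τ (ρ⁻¹ (τ y)) = ρ y := by
        have := congrArg ρ (h y hy); simpa using this
      rw [← h1]
      exact (sameCycle_apply_right).2 (SameCycle.refl _ _)
    have hinv : ∀ z, ρ (ρ (ρ z)) = ρ⁻¹ z := by
      intro z
      have := congrArg (ρ⁻¹ : Perm X) (hK.four z)
      simpa using this
    constructor
    · intro hx
      have h1 := key x (SameCycle.refl _ _)
      rw [hx] at h1
      refine hK.k2 (ρ⁻¹ x) ?_
      simpa using h1
    · intro hx
      have h1 := key x (SameCycle.refl _ _)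
      have h2 := key (τ x) ((sameCycle_apply_right).2 (SameCycle.refl _ _))
      rw [hx] at h2
      have h3 : ρ x = ρ⁻¹ (τ x) := by
        refine hK.k3 _ _ h1.symm ?_
        rw [hinv]
        simpa using h2
      refine hK.k2 x ?_
      have h4 : ρ (ρ x) = τ x := by rw [h3]; simp
      rw [h4]
      exact (sameCycle_apply_right).2 (SameCycle.refl _ _)

theorem three_le_sz {p : Perm X} {x : X} (h1 : p x ≠ x) (h2 : p (p x) ≠ x) :
    3 ≤ sz p (Quotient.mk _ x) := by
  have h3 := sz_one h1
  have h4 := mt (sz_two_iff h1).1 h2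
  have h5 := sz_pos p (Quotient.mk _ x)
  omega

/-- the numbers of cycles in a kernel all of whose face cycles have length two -/
theorem counts (hd1 : D1Stmt) {ρ τ : Perm X} (hK : IsKernel ρ τ) (hE : KEul ρ τ)
    (h : ∀ x, ρ⁻¹ (τ (ρ⁻¹ (τ x))) = x) :
    4 * orb ρ = Nat.card X ∧ 2 * orb (ρ⁻¹ * τ) = Nat.card X ∧
      4 * orb τ = Nat.card X + 8 * comps ρ τ ∧
      ∀ x, 3 ≤ sz τ (Quotient.mk _ x) := by
  obtain ⟨ha, hb, hc⟩ := hd1 X ρ τ hK
  have h2 : 2 * orb (ρ⁻¹ * τ) = Nat.card X := by
    apply orb_mul
    intro x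
    exact (sz_two_iff (p := ρ⁻¹ * τ) (ha x)).2 (h x)
  refine ⟨hb, h2, ?_, ?_⟩
  · unfold KEul at hE
    omega
  · intro x
    obtain ⟨h3, h4⟩ := hc x (fun y _ => h y)
    exact three_le_sz h3 h4

theorem d2 (hd1 : D1Stmt) : D2Stmt := by
  intro X _ ρ τ hK hE h
  obtain ⟨h1, h2, h3, h4⟩ := counts hd1 hK hE h
  have h5 := orb_mul_le h4
  omega

theorem bal_one {X : Type} [Fintype X] {p : Perm X} (k : Perm X)
    (hk : ∀ g : X → ZMod 2, (∀ d, g (p d) = g d) → ∀ d, g (k d) = g d)
    (h1 : ∀ x, k x ≠ x) (h2 : ∀ x, k (k x) = x) : Bal p (fun _ => 1) := by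
  intro g hg
  refine Finset.sum_involution (fun a _ => k a) ?_ ?_ ?_ ?_
  · intro a _
    rw [hk g hg a]
    exact CharTwo.add_self_eq_zero _
  · intro a _ _
    exact h1 a
  · intro a _
    exact Finset.mem_univ _
  · intro a _
    exact h2 a

theorem d3 (hA : HypStmt) (hd1 : D1Stmt) : D3Stmt := by
  classical
  intro X _ ρ τ hK hE hc h h28
  haveI := Fintype.ofFinite X
  obtain ⟨h1, h2, h3, h4⟩ := counts hd1 hK hE h
  have hfp := (hd1 X ρ τ hK).1
  have hprod : ρ * (ρ⁻¹ * τ) = τ := by simp
  -- connectedness for the pair (ρ, ψ)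
  have hcomp : comps ρ (ρ⁻¹ * τ) = comps ρ τ := by
    unfold comps
    have : SameCycle.setoid ρ ⊔ SameCycle.setoid (ρ⁻¹ * τ) =
        SameCycle.setoid ρ ⊔ SameCycle.setoid τ := by
      apply le_antisymm
      · refine sup_le le_sup_left ?_
        intro x y hxy
        obtain ⟨n, hn⟩ := (show (ρ⁻¹ * τ).SameCycle x y from hxy).exists_nat_pow_eq
        subst hn
        clear hxy
        induction n with
        | zero => exact Setoid.refl' _ _
        | succ n ih =>
          refine Setoid.trans' _ ih ?_
          rw [pow_succ', Perm.mul_apply]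
          set z := ((ρ⁻¹ * τ) ^ n) x
          have s1 : (SameCycle.setoid ρ ⊔ SameCycle.setoid τ) z (τ z) :=
            (le_sup_right : SameCycle.setoid τ ≤ SameCycle.setoid ρ ⊔ SameCycle.setoid τ)
              (show τ.SameCycle z (τ z) from (sameCycle_apply_right).2 (SameCycle.refl _ _))
          have s2 : (SameCycle.setoid ρ ⊔ SameCycle.setoid τ) (τ z) ((ρ⁻¹ * τ) z) :=
            (le_sup_left : SameCycle.setoid ρ ≤ SameCycle.setoid ρ ⊔ SameCycle.setoid τ)
              (show ρ.SameCycle (τ z) (ρ⁻¹ (τ z)) from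
                (sameCycle_symm_apply_right).2 (SameCycle.refl _ _))
          exact Setoid.trans' _ s1 s2
      · refine sup_le le_sup_left ?_
        intro x y hxy
        obtain ⟨n, hn⟩ := (show τ.SameCycle x y from hxy).exists_nat_pow_eq
        subst hn
        clear hxy
        induction n with
        | zero => exact Setoid.refl' _ _
        | succ n ih =>
          refine Setoid.trans' _ ih ?_
          rw [pow_succ', Perm.mul_apply]
          set z := (τ ^ n) x
          have s1 : (SameCycle.setoid ρ ⊔ SameCycle.setoid (ρ⁻¹ * τ)) z ((ρ⁻¹ * τ) z) :=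
            (le_sup_right : SameCycle.setoid (ρ⁻¹ * τ) ≤ _)
              (show (ρ⁻¹ * τ).SameCycle z ((ρ⁻¹ * τ) z) from
                (sameCycle_apply_right).2 (SameCycle.refl _ _))
          have s2 : (SameCycle.setoid ρ ⊔ SameCycle.setoid (ρ⁻¹ * τ)) ((ρ⁻¹ * τ) z) (τ z) :=
            (le_sup_left : SameCycle.setoid ρ ≤ _)
              (show ρ.SameCycle (ρ⁻¹ (τ z)) (τ z) from
                (sameCycle_symm_apply_left).2 (SameCycle.refl _ _))
          exact Setoid.trans' _ s1 s2
    rw [this]
  obtain ⟨_, hiff⟩ := hA X ρ (ρ⁻¹ * τ)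
  rw [hprod, hcomp] at hiff
  have hE' : orb ρ + orb (ρ⁻¹ * τ) + orb τ = Fintype.card X + 2 * comps ρ τ := by
    have := hE
    unfold KEul at this
    rw [Nat.card_eq_fintype_card] at this
    omega
  have hb1 : Bal ρ (fun _ => 1) := by
    refine bal_one (ρ * ρ) ?_ ?_ ?_
    · intro g hg d
      rw [Perm.mul_apply, hg, hg]
    · intro x hx
      exact hK.k2 x (by rw [Perm.mul_apply] at hx; rw [hx])
    · intro x
      exact hK.four x
  have hb2 : Bal (ρ⁻¹ * τ) (fun _ => 1) := by
    refine bal_one (ρ⁻¹ * τ) ?_ ?_ ?_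
    · intro g hg d
      exact hg d
    · intro x; exact hfp x
    · intro x; exact h x
  obtain ⟨g, hg1, hg2⟩ := hiff.1 hE' (fun _ => 1) hb1 hb2
  have hg3 : ∀ d, g (τ d) = g d := by
    intro d; simpa using hg1 d
  have hg4 : ∀ d, g (ρ d) = 1 + g d := by
    intro d
    have := hg2 d
    generalize g (ρ d) = a at *
    generalize g d = b at *
    revert this
    revert a b
    decide
  -- the numbers of zeros and ones agree
  have hcard : Nat.card {x // g x = 0} = Nat.card {x // g x = 1} := by
    refine Nat.card_congr ?_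
    refine ρ.subtypeEquiv ?_
    intro a
    rw [hg4]
    generalize g a = b
    revert b
    decide
  have hsum : Nat.card X = Nat.card {x // g x = 0} + Nat.card {x // g x = 1} := by
    have := card_fib g
    rw [this]
    exact Fin.sum_univ_two _
  have h14 : Nat.card {x // g x = 0} = 14 := by omega
  -- g on the cycles of τ
  have hginv : ∀ x y, τ.SameCycle x y → g x = g y := by
    intro x y hxy
    obtain ⟨n, hn⟩ := hxy.exists_nat_pow_eq
    subst hn
    induction n with
    | zero => rfl
    | succ n ih =>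
      rw [pow_succ', Perm.mul_apply, hg3]
      exact ih ⟨n, by simp⟩
  let G : Quotient (SameCycle.setoid τ) → ZMod 2 :=
    Quotient.lift g (fun a b hab => hginv a b hab)
  haveI := Fintype.ofFinite (Quotient (SameCycle.setoid τ))
  have hs1 : Nat.card X = ∑ q, sz τ q := card_sz τ
  have hs2 : Nat.card {x // g x = 0} =
      ∑ q : Quotient (SameCycle.setoid τ), if G q = 0 then sz τ q else 0 := by
    rw [card_fib (fun x : {x // g x = 0} => Quotient.mk (SameCycle.setoid τ) x.1)]
    refine Finset.sum_congr rfl ?_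
    intro q _
    induction q using Quotient.inductionOn with
    | h x =>
      split_ifs with hG
      · unfold sz
        refine Nat.card_congr ⟨fun y => ⟨y.1.1, y.2⟩, fun y => ⟨⟨y.1, ?_⟩, y.2⟩, ?_, ?_⟩
        · have : g y.1 = g x := hginv _ _ ((mk_eq_iff τ _ _).1 y.2)
          rw [this]; exact hG
        · intro y; rfl
        · intro y; rfl
      · rw [Nat.card_eq_zero]
        left
        constructor
        rintro ⟨y, hy⟩
        apply hG
        have : g y.1 = g x := hginv _ _ ((mk_eq_iff τ _ _).1 hy)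
        show g x = 0
        rw [← this]; exact y.2
  have h4' : ∀ q : Quotient (SameCycle.setoid τ), 3 ≤ sz τ q := by
    intro q
    induction q using Quotient.inductionOn with
    | h x => exact h4 x
  have ho : Fintype.card (Quotient (SameCycle.setoid τ)) = 9 := by
    have : orb τ = 9 := by omega
    unfold orb at this
    rwa [Nat.card_eq_fintype_card] at this
  -- write sz = 3 + excess
  have e1 : ∑ q : Quotient (SameCycle.setoid τ), (sz τ q - 3) = 1 := by
    have : ∑ q : Quotient (SameCycle.setoid τ), sz τ q =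
        ∑ q : Quotient (SameCycle.setoid τ), ((sz τ q - 3) + 3) :=
      Finset.sum_congr rfl (fun q _ => by have := h4' q; omega)
    rw [Finset.sum_add_distrib] at this
    simp only [Finset.sum_const, Finset.card_univ, ho, smul_eq_mul] at this
    omega
  have e2 : ∑ q : Quotient (SameCycle.setoid τ), (if G q = 0 then sz τ q - 3 else 0) ≤ 1 := by
    rw [← e1]
    refine Finset.sum_le_sum ?_
    intro q _
    split_ifs <;> omega
  have e3 : ∑ q : Quotient (SameCycle.setoid τ), (if G q = 0 then sz τ q else 0) =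
      ∑ q : Quotient (SameCycle.setoid τ), (if G q = 0 then sz τ q - 3 else 0) +
      3 * ∑ q : Quotient (SameCycle.setoid τ), (if G q = 0 then 1 else 0) := by
    rw [Finset.mul_sum, ← Finset.sum_add_distrib]
    refine Finset.sum_congr rfl ?_
    intro q _
    have := h4' q
    split_ifs <;> omega
  omega

end Pool.Agent.H80.OneP
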