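import Pool.Agent.H80.OneP.Cyc

/-! Module D5 of project ONEP: counting. -/

namespace Pool.Agent.H80.OneP

open Equiv Equiv.Perm Pool.Agent.H74.OneP

theorem psi_le {X : Type} [Finite X] (ρ τ : Perm X) :
    SameCycle.setoid (ρ⁻¹ * τ) ≤ SameCycle.setoid ρ ⊔ SameCycle.setoid τ := by
  intro x y hxy
  obtain ⟨n, hn⟩ := (show (ρ⁻¹ * τ).SameCycle x y from hxy).exists_nat_pow_eq
  subst hn
  clear hxy
  induction n with
  | zero => exact Setoid.refl' _ _
  | succ n ih =>
    refine Setoid.trans' _ ih ?_
    rw [pow_succ', Perm.mul_apply]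
    set z := ((ρ⁻¹ * τ) ^ n) x
    have s1 : (SameCycle.setoid ρ ⊔ SameCycle.setoid τ) z (τ z) :=
      (le_sup_right : SameCycle.setoid τ ≤ SameCycle.setoid ρ ⊔ SameCycle.setoid τ)
        (show τ.SameCycle z (τ z) from (sameCycle_apply_right).2 (SameCycle.refl _ _))
    have s2 : (SameCycle.setoid ρ ⊔ SameCycle.setoid τ) (τ z) ((ρ⁻¹ * τ) z) :=
      (le_sup_left : SameCycle.setoid ρ ≤ SameCycle.setoid ρ ⊔ SameCycle.setoid τ)
        (show ρ.SameCycle (τ z) (ρ⁻¹ (τ z)) from
          (sameCycle_symm_apply_right).2 (SameCycle.refl _ _))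
    exact Setoid.trans' _ s1 s2

theorem d5 (hd1 : D1Stmt) : D6Stmt := by
  classical
  intro X I _ _ ρ τ Φ hK hE hne hpair hcomp
  obtain ⟨hfp, h4, _⟩ := hd1 X ρ τ hK
  have : Fintype (Quotient (SameCycle.setoid (ρ⁻¹ * τ))) := Fintype.ofFinite _
  obtain ⟨s, hs0⟩ : ∃ s : Quotient (SameCycle.setoid (ρ⁻¹ * τ)) → ℕ, s = fun q => sz (ρ⁻¹ * τ) q :=
    ⟨_, rfl⟩
  obtain ⟨f, hf0⟩ : ∃ f : Quotient (SameCycle.setoid (ρ⁻¹ * τ)) → ℕ,
    f = fun q => Nat.card {v : I // Quotient.mk (SameCycle.setoid (ρ⁻¹ * τ)) (Φ v) = q} :=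
    ⟨_, rfl⟩
  have hN : Nat.card X = ∑ q, s q := by rw [hs0]; exact card_sz (ρ⁻¹ * τ)
  have hI : Nat.card I = ∑ q, f q := by
    rw [hf0]; exact card_fib (fun v => Quotient.mk (SameCycle.setoid (ρ⁻¹ * τ)) (Φ v))
  have ho : orb (ρ⁻¹ * τ) = ∑ q : Quotient (SameCycle.setoid (ρ⁻¹ * τ)), 1 := by
    simp [orb, Nat.card_eq_fintype_card]
  have hs2 : ∀ x, s (Quotient.mk _ x) = 2 ↔ ρ⁻¹ (τ (ρ⁻¹ (τ x))) = x := by
    intro x
    rw [hs0]
    exact sz_two_iff (p := ρ⁻¹ * τ) (hfp x)
  have hs : ∀ q, 2 ≤ s q := by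
    intro q
    rw [hs0]
    induction q using Quotient.inductionOn with
    | h x =>
      have h1 := sz_one (p := ρ⁻¹ * τ) (hfp x)
      have h2 := sz_pos (ρ⁻¹ * τ) (Quotient.mk _ x)
      simp only
      omega
  have hf : ∀ q, f q ≤ 1 ∨ (f q = 2 ∧ s q = 2) := by
    intro q
    by_cases h : f q ≤ 1
    · exact Or.inl h
    · right
      have h' : 1 < Nat.card {v : I // Quotient.mk (SameCycle.setoid (ρ⁻¹ * τ)) (Φ v) = q} := by
        rw [hf0] at h; simpa using h
      have hnt := Finite.one_lt_card_iff_nontrivial.1 h'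
      obtain ⟨⟨v, hv⟩, ⟨w, hw⟩, hvw⟩ := hnt.exists_pair_ne
      have hvw' : v ≠ w := fun h0 => hvw (Subtype.ext h0)
      obtain ⟨h1, h2⟩ := hpair v w hvw' ((mk_eq_iff _ _ _).1 (hv.trans hw.symm))
      have h3 : s q = 2 := by rw [← hv]; exact (hs2 _).2 h1
      refine ⟨?_, h3⟩
      have h4 : Nat.card {v : I // Quotient.mk (SameCycle.setoid (ρ⁻¹ * τ)) (Φ v) = q} ≤
          Nat.card Bool := by
        refine Nat.card_le_card_of_surjective
          (fun b : Bool => if b then (⟨v, hv⟩ : {v : I // Quotient.mk _ (Φ v) = q}) else ⟨w, hw⟩) ?_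
        rintro ⟨u, hu⟩
        rcases h2 u ((mk_eq_iff _ _ _).1 (hv.trans hu.symm)) with rfl | rfl
        · exact ⟨true, by simp⟩
        · exact ⟨false, by simp⟩
      rw [Nat.card_eq_fintype_card (α := Bool), Fintype.card_bool] at h4
      rw [hf0]
      simp only
      omega
  -- the deficiencies
  obtain ⟨D, hD0⟩ : ∃ D : Quotient (SameCycle.setoid (ρ⁻¹ * τ)) → ℕ,
    D = fun q => 4 + 2 * s q - 4 * f q := ⟨_, rfl⟩
  have hD : ∀ q, D q + 4 * f q = 4 + 2 * s q := by
    intro q
    rw [hD0]
    have h1 := hf q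
    have h2 := hs q
    simp only
    omega
  have hsum : ∑ q, D q + 4 * ∑ q, f q =
      4 * ∑ q : Quotient (SameCycle.setoid (ρ⁻¹ * τ)), 1 + 2 * ∑ q, s q := by
    rw [Finset.mul_sum, Finset.mul_sum, Finset.mul_sum, ← Finset.sum_add_distrib,
      ← Finset.sum_add_distrib]
    exact Finset.sum_congr rfl (fun q _ => hD q)
  have hmain : 4 * (orb τ + Nat.card I) + ∑ q, D q = 5 * Nat.card X + 8 * comps ρ τ := by
    unfold KEul at hE
    rw [← hI, ← hN, ← ho] at hsum
    omega
  have hκ : 0 < comps ρ τ := by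
    unfold comps
    have : Nonempty (Quotient (SameCycle.setoid ρ ⊔ SameCycle.setoid τ)) :=
      ⟨Quotient.mk _ hne.some⟩
    exact Nat.card_pos
  -- many empty cycles
  have hZ : 2 ≤ comps ρ τ →
      8 * comps ρ τ ≤ ∑ q, (if f q = 0 then 8 else 0) := by
    intro h2
    have hc := hcomp h2
    have hinj : comps ρ τ ≤ Nat.card {q // f q = 0} := by
      unfold comps
      have hex : ∀ c : Quotient (SameCycle.setoid ρ ⊔ SameCycle.setoid τ), ∃ y : X,
          Quotient.mk _ y = c ∧ f (Quotient.mk _ y) = 0 := by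
        intro c
        induction c using Quotient.inductionOn with
        | h x =>
          obtain ⟨y, hy, hy2⟩ := hc x
          refine ⟨y, (Quotient.sound hy).symm, ?_⟩
          rw [hf0]
          simp only
          rw [Nat.card_eq_zero]
          left
          constructor
          rintro ⟨v, hv⟩
          exact hy2 v ((mk_eq_iff _ _ _).1 hv.symm)
      choose y hy1 hy2 using hex
      refine Nat.card_le_card_of_injective
        (fun c => (⟨Quotient.mk _ (y c), hy2 c⟩ : {q // f q = 0})) ?_
      intro c c' hcc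
      have h3 : (Quotient.mk (SameCycle.setoid (ρ⁻¹ * τ)) (y c)) =
        Quotient.mk (SameCycle.setoid (ρ⁻¹ * τ)) (y c') := congrArg Subtype.val hcc
      rw [← hy1 c, ← hy1 c']
      exact Quotient.sound (psi_le ρ τ ((mk_eq_iff _ _ _).1 h3))
    have : Nat.card {q // f q = 0} * 8 = ∑ q, (if f q = 0 then 8 else 0) := by
      rw [← Finset.sum_filter, Finset.sum_const, Nat.card_eq_fintype_card, Fintype.card_subtype,
        smul_eq_mul]
    omega
  have hZD : ∑ q, (if f q = 0 then 8 else 0) ≤ ∑ q, D q := by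
    refine Finset.sum_le_sum ?_
    intro q _
    have h1 := hD q
    have h2 := hs q
    split_ifs with h3
    · omega
    · omega
  have hall : (∀ q, s q = 2) → ∀ x, ρ⁻¹ (τ (ρ⁻¹ (τ x))) = x := fun h x => (hs2 x).1 (h _)
  have hle : ∀ q, D q ≤ ∑ q, D q := fun q =>
    Finset.single_le_sum (f := D) (fun _ _ => Nat.zero_le _) (Finset.mem_univ q)
  refine ⟨?_, ?_, ?_⟩
  · by_cases h2 : 2 ≤ comps ρ τ
    · have := hZ h2; omega
    · omega
  · intro hn
    have hκ1 : comps ρ τ = 1 := by
      by_contra h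
      have := hZ (by omega)
      omega
    refine ⟨hκ1, hall ?_⟩
    intro q
    have h1 := hle q
    have h2 := hD q
    have h3 := hf q
    have h4 := hs q
    omega
  · intro hn
    by_cases h2 : 2 ≤ comps ρ τ
    · left
      apply hall
      have h3 := hZ h2
      have h5 : ∑ q, (if f q = 0 then 8 else 0) = ∑ q, D q := by omega
      have h6 := (Finset.sum_eq_sum_iff_of_le (s := Finset.univ)
        (f := fun q => if f q = 0 then 8 else 0) (g := D) (by
          intro q _
          have h1 := hD q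
          have h2 := hs q
          split_ifs with h3
          · omega
          · omega)).1 h5
      intro q
      have h7 := h6 q (Finset.mem_univ q)
      have h8 := hD q
      have h9 := hf q
      have h10 := hs q
      split_ifs at h7 <;> omega
    · have hκ1 : comps ρ τ = 1 := by omega
      by_cases hq : ∀ q, s q = 2
      · left; exact hall hq
      · right
        push Not at hq
        obtain ⟨q0, hq0⟩ := hq
        have h5 := hle q0
        have h6 := hD q0
        have h7 := hf q0
        have h8 := hs q0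
        have hother : ∀ q, q ≠ q0 → s q = 2 := by
          intro q hne
          have h9 : D q0 + D q ≤ ∑ q, D q := by
            rw [← Finset.sum_pair (f := D) (Ne.symm hne)]
            exact Finset.sum_le_sum_of_subset (Finset.subset_univ _)
          have h10 := hD q
          have h11 := hf q
          have h12 := hs q
          omega
        have hpar : s q0 + 2 * (Finset.univ.erase q0).card = Nat.card X := by
          rw [hN, ← Finset.add_sum_erase _ _ (Finset.mem_univ q0)]
          congr 1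
          rw [Finset.sum_congr rfl (fun q hq => hother q (Finset.ne_of_mem_erase hq))]
          simp [mul_comm]
        have hsq : s q0 = 4 := by omega
        have hfq : f q0 = 1 := by omega
        have hpos : 0 < Nat.card
            {v : I // Quotient.mk (SameCycle.setoid (ρ⁻¹ * τ)) (Φ v) = q0} := by
          rw [hf0] at hfq
          simp only at hfq
          omega
        obtain ⟨⟨v, hv⟩⟩ := (Nat.card_pos_iff.1 hpos).1
        refine ⟨hκ1, v, ?_, ?_, ?_⟩
        · have := (pow_iff (ρ⁻¹ * τ) (Φ v) 4).2 (by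
            rw [hv]
            rw [hs0] at hsq
            simp only at hsq
            rw [hsq])
          simpa [pow_succ] using this
        · intro h9
          have := (hs2 _).2 h9
          rw [hv] at this
          omega
        · intro y hy
          apply (hs2 y).1
          apply hother
          intro h9
          exact hy ((mk_eq_iff _ _ _).1 (hv.trans h9.symm))

end Pool.Agent.H80.OneP
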